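import Mathlib
import Pool.Agent.V11190.Bicycle4

open Set Filter Topology
open Pool.Agent.V11190.Bicycle

namespace Pool.Agent.Results.MP_08099c_gt.Transition

/-- `θ` is a solution on `[0, T]` of the no-skid equation `ℓ θ' = Γ' · (-sin θ, cos θ)`. -/
def IsSteering (Γ : ℝ → ℂ) (T l : ℝ) (θ : ℝ → ℝ) : Prop :=
  ∀ t ∈ Icc 0 T, HasDerivWithinAt θ
    ((-(deriv Γ t).re * Real.sin (θ t) + (deriv Γ t).im * Real.cos (θ t)) / l) (Icc 0 T) t

/-- `M ∈ SL(2, ℝ)` is a lift of the monodromy `θ(0) ↦ θ(T)`; the circle of directions `θ` is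
identified with the projective line through `θ ↦ [cos (θ/2) : sin (θ/2)]`. -/
def IsMonodromyMatrix (Γ : ℝ → ℂ) (T l : ℝ) (M : Matrix (Fin 2) (Fin 2) ℝ) : Prop :=
  M.det = 1 ∧ ∀ θ : ℝ → ℝ, IsSteering Γ T l θ → ∃ c : ℝ, c ≠ 0 ∧
    M.mulVec ![Real.cos (θ 0 / 2), Real.sin (θ 0 / 2)] =
      c • ![Real.cos (θ T / 2), Real.sin (θ T / 2)]

/-- The monodromy is hyperbolic: it has a lift `M`, and every lift has `|tr M| > 2`. -/
def Hyperbolic (Γ : ℝ → ℂ) (T l : ℝ) : Prop :=
  (∃ M, IsMonodromyMatrix Γ T l M) ∧ ∀ M, IsMonodromyMatrix Γ T l M → 2 < |M.trace|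

/-- The monodromy is elliptic: it has a lift `M`, and every lift has `|tr M| < 2`. -/
def Elliptic (Γ : ℝ → ℂ) (T l : ℝ) : Prop :=
  (∃ M, IsMonodromyMatrix Γ T l M) ∧ ∀ M, IsMonodromyMatrix Γ T l M → |M.trace| < 2

lemma steering_iff (Γ : ℝ → ℂ) (T l : ℝ) (θ : ℝ → ℝ) : IsSteering Γ T l θ ↔
    IsSol (1 / l) T (fun t => (deriv Γ t).re) (fun t => (deriv Γ t).im) θ := by
  have e : ∀ t, (-(deriv Γ t).re * Real.sin (θ t) + (deriv Γ t).im * Real.cos (θ t)) / l =
      1 / l * ((deriv Γ t).im * Real.cos (θ t) - (deriv Γ t).re * Real.sin (θ t)) := by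
    intro t; ring
  simp only [IsSteering, IsSol, e]

lemma mon_iff (Γ : ℝ → ℂ) (T l : ℝ) (M : Matrix (Fin 2) (Fin 2) ℝ) : IsMonodromyMatrix Γ T l M ↔
    IsMonodromy (1 / l) T (fun t => (deriv Γ t).re) (fun t => (deriv Γ t).im) M := by
  simp only [IsMonodromyMatrix, IsMonodromy, steering_iff]

/-- reflected matrix -/
def refl (M : Matrix (Fin 2) (Fin 2) ℝ) : Matrix (Fin 2) (Fin 2) ℝ :=
  !![M 0 0, -M 0 1; -M 1 0, M 1 1]

lemma refl_refl (M : Matrix (Fin 2) (Fin 2) ℝ) : refl (refl M) = M := by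
  ext i j; fin_cases i <;> fin_cases j <;> simp [refl]

lemma refl_trace (M : Matrix (Fin 2) (Fin 2) ℝ) : (refl M).trace = M.trace := by
  simp [refl, Matrix.trace_fin_two]

lemma sol_refl {s T : ℝ} {X' Y' θ : ℝ → ℝ} (h : IsSol s T X' Y' θ) :
    IsSol s T X' (fun t => -Y' t) (fun t => -θ t) := by
  intro t ht
  refine (h t ht).neg.congr_deriv ?_
  rw [Real.cos_neg, Real.sin_neg]; ring

lemma mon_refl {s T : ℝ} {X' Y' : ℝ → ℝ} {M : Matrix (Fin 2) (Fin 2) ℝ}
    (h : IsMonodromy s T X' Y' M) : IsMonodromy s T X' (fun t => -Y' t) (refl M) := by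
  refine ⟨?_, fun θ hθ => ?_⟩
  · have := h.1
    rw [Matrix.det_fin_two] at this ⊢
    simp only [refl, Matrix.of_apply, Matrix.cons_val', Matrix.cons_val_zero, Matrix.cons_val_one,
      Matrix.cons_val_fin_one]
    linarith
  · have h1 := sol_refl hθ
    simp only [neg_neg] at h1
    obtain ⟨c, hc, h2⟩ := h.2 _ h1
    refine ⟨c, hc, ?_⟩
    have e0 := congrFun h2 0
    have e1 := congrFun h2 1
    simp [Matrix.mulVec, dotProduct, Fin.sum_univ_two, neg_div] at e0 e1
    ext i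
    fin_cases i
    · simp [refl, Matrix.mulVec, dotProduct, Fin.sum_univ_two]
      linarith
    · simp [refl, Matrix.mulVec, dotProduct, Fin.sum_univ_two]
      linarith

lemma hyp_refl {s T : ℝ} {X' Y' : ℝ → ℝ} (h : Hyp s T X' (fun t => -Y' t)) : Hyp s T X' Y' := by
  obtain ⟨⟨M, hM⟩, hall⟩ := h
  refine ⟨⟨refl M, ?_⟩, fun N hN => ?_⟩
  · have := mon_refl hM
    simpa using this
  · have := hall _ (mon_refl hN)
    rwa [refl_trace] at this

lemma ell_refl {s T : ℝ} {X' Y' : ℝ → ℝ} (h : Ell s T X' (fun t => -Y' t)) : Ell s T X' Y' := by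
  obtain ⟨⟨M, hM⟩, hall⟩ := h
  refine ⟨⟨refl M, ?_⟩, fun N hN => ?_⟩
  · have := mon_refl hM
    simpa using this
  · have := hall _ (mon_refl hN)
    rwa [refl_trace] at this

/-- complex conjugation as a homeomorphism -/
noncomputable def cj : ℂ ≃L[ℝ] ℂ := Complex.conjCLE

lemma conj_track {Γ : ℝ → ℂ} {T : ℝ} {K : Set ℂ} (h : IsConvexTrack Γ T K) :
    IsConvexTrack (fun t => cj (Γ t)) T (cj '' K) ∧
      ∀ t, deriv (fun t => cj (Γ t)) t = cj (deriv Γ t) := by
  have hd : ∀ t, deriv (fun t => cj (Γ t)) t = cj (deriv Γ t) := fun t =>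
    (cj.hasFDerivAt.comp_hasDerivAt t (h.diff t)).deriv
  refine ⟨?_, hd⟩
  refine
    { period_pos := h.period_pos
      smooth := cj.contDiff.comp h.smooth
      periodic := fun t => by rw [h.periodic t]
      regular := fun t => by
        rw [hd]; intro h0
        exact h.regular t (cj.map_eq_zero_iff.1 h0)
      simple := fun a ha b hb hab => h.simple ha hb (cj.injective hab)
      compact := h.compact.image cj.continuous
      strict := h.strict.linear_image (cj : ℂ →ₗ[ℝ] ℂ) cj.toHomeomorph.isOpenMap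
      boundary := ?_ }
  have h1 : frontier (cj '' K) = cj '' frontier K := (cj.toHomeomorph.image_frontier K).symm
  rw [h1, h.boundary, ← range_comp]
  rfl

/-- **Hyperbolic to elliptic transition.** For every simple strictly convex closed front track there
is a critical length `l₀ > 0`: the bicycle monodromy is hyperbolic for all lengths below `l₀` and
elliptic for all lengths above. -/
theorem result (Γ : ℝ → ℂ) (T : ℝ) (K : Set ℂ) (hΓ : IsConvexTrack Γ T K) :
    ∃ l₀ : ℝ, 0 < l₀ ∧ (∀ l, 0 < l → l < l₀ → Hyperbolic Γ T l) ∧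
      (∀ l, l₀ < l → Elliptic Γ T l) := by
  have key : ∃ s0 : ℝ, 0 < s0 ∧
      (∀ s, s0 < s → Hyp s T (fun t => (deriv Γ t).re) (fun t => (deriv Γ t).im)) ∧
      (∀ s, 0 < s → s < s0 → Ell s T (fun t => (deriv Γ t).re) (fun t => (deriv Γ t).im)) := by
    rcases hΓ.oriented with hp | hn
    · obtain ⟨v, φ, φ', tr⟩ := hΓ.toTrack hp
      exact transition tr
    · obtain ⟨hΓ', hd⟩ := conj_track hΓ
      have hp : PosOriented (fun t => cj (Γ t)) (cj '' K) := by
        intro t p hp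
        have h1 : interior (cj '' K) = cj '' interior K := (cj.toHomeomorph.image_interior K).symm
        rw [h1] at hp
        obtain ⟨q, hq, rfl⟩ := hp
        rw [hd]
        have h2 := hn t q hq
        have h3 : cr (cj (deriv Γ t)) (cj q - cj (Γ t)) = -cr (deriv Γ t) (q - Γ t) := by
          simp [cr, cj]; ring
        rw [h3]; linarith
      obtain ⟨v, φ, φ', tr⟩ := hΓ'.toTrack hp
      obtain ⟨s0, h0, h1, h2⟩ := transition tr
      have e1 : (fun t => (deriv (fun t => cj (Γ t)) t).re) = fun t => (deriv Γ t).re := by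
        ext t; rw [hd]; simp [cj]
      have e2 : (fun t => (deriv (fun t => cj (Γ t)) t).im) = fun t => -(deriv Γ t).im := by
        ext t; rw [hd]; simp [cj]
      rw [e1, e2] at h1 h2
      exact ⟨s0, h0, fun s hs => hyp_refl (h1 s hs), fun s hs hs' => ell_refl (h2 s hs hs')⟩
  obtain ⟨s0, h0, h1, h2⟩ := key
  refine ⟨1 / s0, one_div_pos.2 h0, ?_, ?_⟩
  · intro l hl hlt
    have hs : s0 < 1 / l := by rwa [lt_one_div h0 hl]
    obtain ⟨⟨M, hM⟩, hall⟩ := h1 _ hs
    exact ⟨⟨M, (mon_iff _ _ _ _).2 hM⟩, fun N hN => hall N ((mon_iff _ _ _ _).1 hN)⟩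
  · intro l hlt
    have hl : 0 < l := (one_div_pos.2 h0).trans hlt
    have hs : 1 / l < s0 := by rwa [one_div_lt hl h0]
    obtain ⟨⟨M, hM⟩, hall⟩ := h2 _ (one_div_pos.2 hl) hs
    exact ⟨⟨M, (mon_iff _ _ _ _).2 hM⟩, fun N hN => hall N ((mon_iff _ _ _ _).1 hN)⟩

end Pool.Agent.Results.MP_08099c_gt.Transition
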